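import Mathlib
import Pool.Agent.W114.HL.Full
import Pool.Agent.W12.HL.DH

set_option autoImplicit false

/-!
# Difference sets with fixed non-square `lam`
-/

namespace Pool.Agent.Results.MP_706923_co.ReciprocalSum

/-- The sizes `k` of the `(v, k, lam)` difference sets `D` in finite groups `G` of order `v` (`v`
arbitrary, `G` not assumed abelian), `2 ≤ k < v`: every element `g ≠ 1` of `G` is `a * b⁻¹` for exactly
`lam` pairs `(a, b)` of elements of `D`. -/
def sizes (lam : ℕ) : Set ℕ :=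
  {k : ℕ | ∃ (G : Type) (_ : Group G) (_ : Fintype G) (_ : DecidableEq G) (D : Finset G),
    2 ≤ k ∧ D.card = k ∧ k < Fintype.card G ∧
      ∀ g : G, g ≠ 1 → ((D ×ˢ D).filter (fun p : G × G => p.1 * p.2⁻¹ = g)).card = lam}

/-- Let `lam ≥ 2` be an integer which is not a perfect square. For every `ε > 0` there is `C` such that
for all `X ≥ 3` at most `C X (log X) ^ (ε - 9 / 8)` integers `k ≤ X` are sizes of `(v, k, lam)`
difference sets in finite groups; in particular the sum of `1 / k` over all these sizes converges. -/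
theorem result (lam : ℕ) (hlam : 2 ≤ lam) (hsq : ¬ IsSquare lam) :
    (∀ ε : ℝ, 0 < ε → ∃ C : ℝ, 0 < C ∧ ∀ X : ℕ, 3 ≤ X →
      ({k : ℕ | k ≤ X ∧ k ∈ sizes lam}.ncard : ℝ) ≤ C * X * (Real.log X) ^ (ε - 9 / 8)) ∧
    Summable ((sizes lam).indicator (fun k : ℕ => 1 / (k : ℝ))) := by
  have h1 : ∀ ε : ℝ, 0 < ε → ∃ C : ℝ, 0 < C ∧ ∀ X : ℕ, 3 ≤ X →
      ({k : ℕ | k ≤ X ∧ k ∈ sizes lam}.ncard : ℝ) ≤ C * X * (Real.log X) ^ (ε - 9 / 8) :=
    fun ε hε => Pool.Agent.W114.HL.ds_app Pool.Agent.W114.HL.main (Pool.Agent.W12.HL.dh Pool.Agent.W114.HL.dm) hlam hsq ε hε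
  refine ⟨h1, ?_⟩
  obtain ⟨C, -, h⟩ := h1 (1 / 16) (by norm_num)
  refine Pool.Agent.W114.HL.summable_of_count (C := C) (a := 17 / 16) (by norm_num) ?_
  intro X hX
  have h2 := h X hX
  norm_num at h2 ⊢
  exact h2

end Pool.Agent.Results.MP_706923_co.ReciprocalSum
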